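import Pool.Agent.Work.MP_3e1351_al.Ct.Space

/-! The cotype inequality. -/

namespace Pool.Agent.Work.MP_3e1351_al.Ct

open Finset
open scoped BoundedContinuousFunction

variable {X : Type} [MetricSpace X] {l : ℝ} {n : ℕ}

/-- the Riesz product of shifted test families -/
noncomputable def psi {c : Fin n → ℝ} {s : Fin n → ℤ} (hc : ∑ j, c j ^ 2 ≤ 1)
    (hs : ∑ j, |c j| * (2 : ℝ) ^ (-s j) ≤ 1) (φ : Fin n → Phi X) (ε : Fin n → Bool) : Phi X :=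
  ⟨fun k x => rz c ε fun j => (φ j).1 (k + s j) x, fun k x y =>
    ⟨rz_abs hc ε fun j => ((φ j).2 _ x y).1, by
      refine (rz_lip hc ε (fun j => ((φ j).2 _ x y).1) fun j => ((φ j).2 _ y x).1).trans ?_
      have h1 : ∀ j, |c j| * |(φ j).1 (k + s j) x - (φ j).1 (k + s j) y| ≤
          (2 : ℝ) ^ (-k) * dist x y * (|c j| * (2 : ℝ) ^ (-s j)) := fun j => by
        refine (mul_le_mul_of_nonneg_left ((φ j).2 _ x y).2 (abs_nonneg _)).trans (le_of_eq ?_)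
        rw [neg_add, zpow_add₀ two_ne_zero]; ring
      refine (sum_le_sum fun j _ => h1 j).trans ?_
      rw [← mul_sum]
      exact mul_le_of_le_one_right (by positivity) hs⟩⟩

theorem psi_mol (hl : 1 < l ∧ l < 2) {c : Fin n → ℝ} {s : Fin n → ℤ} (hc : ∑ j, c j ^ 2 ≤ 1)
    (hs : ∑ j, |c j| * (2 : ℝ) ^ (-s j) ≤ 1) (φ : Fin n → Phi X) (j : Fin n) (x y : X) :
    ∑ ε : Fin n → Bool, sg (ε j) * mol hl x y (psi hc hs φ ε) =
      2 ^ n / 2 * c j * l ^ (-s j) * mol hl x y (φ j) := by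
  have l0 : l ≠ 0 := (zero_lt_one.trans hl.1).ne'
  have h1 := hasSum_sum (s := (univ : Finset (Fin n → Bool)))
    fun ε _ => (mol_sum hl (psi hc hs φ ε) x y).mul_left (sg (ε j))
  have h2 := ((Equiv.addRight (s j)).hasSum_iff.2 (mol_sum hl (φ j) x y)).mul_left
    (2 ^ n / 2 * c j * l ^ (-s j))
  refine h1.unique ?_
  have e : (fun k => ∑ ε : Fin n → Bool, sg (ε j) * tm l (psi hc hs φ ε) x y k) =
      fun k => 2 ^ n / 2 * c j * l ^ (-s j) * (tm l (φ j) x y ∘ Equiv.addRight (s j)) k := by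
    funext k
    have a1 := rz_avg c (fun i => (φ i).1 (k + s i) x) j
    have a2 := rz_avg c (fun i => (φ i).1 (k + s i) y) j
    have a3 : ∑ ε : Fin n → Bool, sg (ε j) * tm l (psi hc hs φ ε) x y k =
        l ^ k * (∑ ε : Fin n → Bool, sg (ε j) * rz c ε (fun i => (φ i).1 (k + s i) x) -
          ∑ ε : Fin n → Bool, sg (ε j) * rz c ε (fun i => (φ i).1 (k + s i) y)) := by
      rw [← sum_sub_distrib, mul_sum]
      refine sum_congr rfl fun ε _ => ?_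
      simp only [tm, psi]; ring
    rw [a3, a1, a2]
    show _ = 2 ^ n / 2 * c j * l ^ (-s j) *
      (l ^ (k + s j) * ((φ j).1 (k + s j) x - (φ j).1 (k + s j) y))
    rw [zpow_add₀ l0, zpow_neg]
    have : l ^ s j ≠ 0 := zpow_ne_zero _ l0
    field_simp
  rw [e]
  exact h2

theorem psi_Fr (hl : 1 < l ∧ l < 2) {c : Fin n → ℝ} {s : Fin n → ℤ} (hc : ∑ j, c j ^ 2 ≤ 1)
    (hs : ∑ j, |c j| * (2 : ℝ) ^ (-s j) ≤ 1) (φ : Fin n → Phi X) (j : Fin n) {v : Phi X →ᵇ ℝ}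
    (hv : v ∈ Fr X hl) : ∑ ε : Fin n → Bool, sg (ε j) * v (psi hc hs φ ε) =
      2 ^ n / 2 * c j * l ^ (-s j) * v (φ j) := by
  let L : (Phi X →ᵇ ℝ) →L[ℝ] ℝ :=
    ∑ ε : Fin n → Bool, sg (ε j) • BoundedContinuousFunction.evalCLM ℝ (psi hc hs φ ε) -
      (2 ^ n / 2 * c j * l ^ (-s j)) • BoundedContinuousFunction.evalCLM ℝ (φ j)
  have hL : ∀ w, L w = ∑ ε : Fin n → Bool, sg (ε j) * w (psi hc hs φ ε) -
      2 ^ n / 2 * c j * l ^ (-s j) * w (φ j) := fun w => by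
    simp only [L, _root_.sub_apply, _root_.sum_apply, _root_.smul_apply, smul_eq_mul]
    rfl
  have h1 : L v = 0 := Fr_le hl (W := LinearMap.ker L.toLinearMap) L.isClosed_ker
    (fun x y => (hL _).trans (sub_eq_zero.2 (psi_mol hl hc hs φ j x y))) hv
  exact sub_eq_zero.1 ((hL v).symm.trans h1)

theorem exists_norming (v : Phi X →ᵇ ℝ) : ∃ (φ : Phi X) (b : Bool), ‖v‖ / 2 ≤ sg b * v φ := by
  by_contra hh
  push Not at hh
  have h1 : ∀ φ, ‖v φ‖ < ‖v‖ / 2 := fun φ => by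
    have a := hh φ true
    have b := hh φ false
    simp only [sg, if_true, one_mul, Bool.false_eq_true, if_false, neg_mul] at a b
    exact abs_lt.2 ⟨by linarith, a⟩
  have h2 := (BoundedContinuousFunction.norm_le (f := v) (by positivity)).2 fun φ => (h1 φ).le
  have h3 := h1 ⟨fun _ _ => 0, fun k x y => by simp; positivity⟩
  linarith [norm_nonneg (v ⟨fun _ _ => 0, fun k x y => by simp; positivity⟩)]

theorem exists_shift {a : ℝ} (ha : 0 ≤ a) :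
    ∃ s : ℤ, a * (2 : ℝ) ^ (-s) ≤ a ^ 2 ∧ a ≤ 2 * (2 : ℝ) ^ (-s) := by
  rcases ha.eq_or_lt with rfl | h
  · exact ⟨0, by simp, by simp⟩
  · obtain ⟨m, h1, h2⟩ := exists_mem_Ico_zpow h (one_lt_two (α := ℝ))
    refine ⟨-m, ?_, ?_⟩
    · rw [neg_neg, sq]; exact mul_le_mul_of_nonneg_left h1 ha
    · rw [neg_neg, mul_comm, ← zpow_add_one₀ two_ne_zero]; exact h2.le

theorem two_rpow {θ : ℝ} (h0 : 0 < θ) (h1 : θ < 1) : 1 < (2 : ℝ) ^ θ ∧ (2 : ℝ) ^ θ < 2 :=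
  ⟨Real.one_lt_rpow one_lt_two h0, by
    simpa using Real.rpow_lt_rpow_of_exponent_lt one_lt_two h1⟩

theorem two_zpow (θ : ℝ) (m : ℤ) : ((2 : ℝ) ^ θ) ^ m = ((2 : ℝ) ^ m) ^ θ := by
  rw [← Real.rpow_intCast, ← Real.rpow_intCast, ← Real.rpow_mul zero_le_two,
    ← Real.rpow_mul zero_le_two, mul_comm]

theorem half_le {θ : ℝ} (h0 : 0 < θ) (h1 : θ < 1) {a : ℝ} (ha : 0 ≤ a) {m : ℤ}
    (h : a ≤ 2 * (2 : ℝ) ^ m) : a ^ θ / 2 ≤ ((2 : ℝ) ^ θ) ^ m := by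
  have a1 := Real.rpow_le_rpow ha h h0.le
  rw [Real.mul_rpow zero_le_two (by positivity), ← two_zpow] at a1
  have a2 : (0 : ℝ) ≤ ((2 : ℝ) ^ θ) ^ m := by positivity
  have a3 := mul_le_mul_of_nonneg_right (two_rpow h0 h1).2.le a2
  linarith

/-- the dual form of the cotype inequality -/
theorem dual_form {θ : ℝ} (h0 : 0 < θ) (h1 : θ < 1) (x : Fin n → Fr X (two_rpow h0 h1))
    (a : Fin n → ℝ) (ha : ∀ j, 0 ≤ a j) (h2 : ∑ j, a j ^ 2 ≤ 1) :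
    2 ^ n / 8 * ∑ j, a j * a j ^ θ * ‖x j‖ ≤ ∑ ε : Fin n → Bool, ‖∑ j, sg (ε j) • x j‖ := by
  choose φ b hφ using fun j => exists_norming (x j : Phi X →ᵇ ℝ)
  choose s hs1 hs2 using fun j => exists_shift (ha j)
  have e1 : ∀ j, |sg (b j) * a j| = a j := fun j => by
    rw [abs_mul, abs_sg, one_mul, abs_of_nonneg (ha j)]
  have hc : ∑ j, (sg (b j) * a j) ^ 2 ≤ 1 := by
    refine le_of_eq_of_le (sum_congr rfl fun j _ => ?_) h2
    rw [← sq_abs, e1]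
  have hs : ∑ j, |sg (b j) * a j| * (2 : ℝ) ^ (-s j) ≤ 1 :=
    (sum_le_sum fun j _ => by rw [e1]; exact hs1 j).trans h2
  have h3 : ∀ ε : Fin n → Bool, ∑ j, sg (ε j) * (x j : Phi X →ᵇ ℝ) (psi hc hs φ ε) ≤
      ‖∑ j, sg (ε j) • x j‖ := fun ε => by
    have e : ((∑ j, sg (ε j) • x j : Fr X (two_rpow h0 h1)) : Phi X →ᵇ ℝ) (psi hc hs φ ε) =
        ∑ j, sg (ε j) * (x j : Phi X →ᵇ ℝ) (psi hc hs φ ε) := by
      rw [Submodule.coe_sum, BoundedContinuousFunction.sum_apply]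
      rfl
    rw [← e]
    exact (le_abs_self _).trans (BoundedContinuousFunction.norm_coe_le_norm
      ((∑ j, sg (ε j) • x j : Fr X (two_rpow h0 h1)) : Phi X →ᵇ ℝ) _)
  refine le_trans ?_ (sum_le_sum fun ε _ => h3 ε)
  rw [sum_comm, mul_sum]
  refine sum_le_sum fun j _ => ?_
  rw [psi_Fr (two_rpow h0 h1) hc hs φ j (x j).2]
  have a1 := half_le h0 h1 (ha j) (hs2 j)
  have a2 : a j ^ θ / 2 * (‖x j‖ / 2) ≤
      ((2 : ℝ) ^ θ) ^ (-s j) * (sg (b j) * (x j : Phi X →ᵇ ℝ) (φ j)) :=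
    mul_le_mul a1 (hφ j) (by positivity) (by positivity)
  have a3 : (0 : ℝ) ≤ 2 ^ n / 2 * a j := mul_nonneg (by positivity) (ha j)
  refine le_of_eq_of_le ?_ ((mul_le_mul_of_nonneg_left a2 a3).trans (le_of_eq ?_)) <;> ring

theorem cotype {q : ℝ} (hq : 2 < q) (h0 : 0 < 1 - 2 / q) (h1 : 1 - 2 / q < 1) :
    HasCotype q (Fr X (two_rpow h0 h1)) := by
  refine ⟨8, fun n x => ?_⟩
  have q0 : 0 < q := by linarith
  have hS : 0 ≤ ∑ i, ‖x i‖ ^ q := sum_nonneg fun i _ => by positivity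
  rcases hS.eq_or_lt with e | hS'
  · rw [← e, Real.zero_rpow (by positivity)]
    positivity
  set T := (∑ i, ‖x i‖ ^ q) ^ (1 / q) with hT
  have T0 : 0 < T := Real.rpow_pos_of_pos hS' _
  have Tq : T ^ q = ∑ i, ‖x i‖ ^ q := by
    rw [hT, ← Real.rpow_mul hS, one_div_mul_cancel q0.ne', Real.rpow_one]
  have r0 : ∀ j, 0 ≤ ‖x j‖ / T := fun j => by positivity
  have s1 : ∑ j, (‖x j‖ / T) ^ q = 1 := by
    rw [sum_congr rfl fun j _ => Real.div_rpow (norm_nonneg (x j)) T0.le q, ← sum_div, Tq,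
      div_self hS'.ne']
  have h2 : ∀ j, ((‖x j‖ / T) ^ (q / 2)) ^ 2 = (‖x j‖ / T) ^ q := fun j => by
    rw [← Real.rpow_natCast, ← Real.rpow_mul (r0 j)]
    congr 1; push_cast; ring
  have h3 : ∀ j, (‖x j‖ / T) ^ (q / 2) * ((‖x j‖ / T) ^ (q / 2)) ^ (1 - 2 / q) * ‖x j‖ =
      T * (‖x j‖ / T) ^ q := fun j => by
    have e : q = q / 2 + q / 2 * (1 - 2 / q) + 1 := by field_simp; ring
    have e2 : (‖x j‖ / T) ^ q = (‖x j‖ / T) ^ (q / 2 + q / 2 * (1 - 2 / q) + 1) := by rw [← e]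
    rw [e2, Real.rpow_add_of_nonneg (r0 j) (by positivity) zero_le_one,
      Real.rpow_add_of_nonneg (r0 j) (by positivity) (by positivity), Real.rpow_one,
      Real.rpow_mul (r0 j)]
    field_simp
  have h4 := dual_form h0 h1 x (fun j => (‖x j‖ / T) ^ (q / 2)) (fun j => by positivity)
    (by rw [sum_congr rfl fun j _ => h2 j, s1])
  rw [sum_congr rfl fun j _ => h3 j, ← mul_sum, s1, mul_one] at h4
  rw [← mul_div_assoc, le_div_iff₀ (by positivity)]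
  have e : ∑ ε : Fin n → Bool, ‖∑ j, sg (ε j) • x j‖ =
      ∑ ε : Fin n → Bool, ‖∑ i, (if ε i then (1 : ℝ) else -1) • x i‖ := rfl
  rw [← e]
  linarith

theorem mol_two {θ : ℝ} (h0 : 0 < θ) (h1 : θ < 1) (x y : X) :
    dist x y ^ θ / 2 ≤ ‖mol (two_rpow h0 h1) x y‖ ∧
      ‖mol (two_rpow h0 h1) x y‖ ≤ 2 * kk ((2 : ℝ) ^ θ) * dist x y ^ θ := by
  by_cases e : x = y
  · subst e
    rw [mol_self, dist_self, Real.zero_rpow h0.ne']
    simp
  · obtain ⟨m, a1, a2⟩ := exists_mem_Ico_zpow (dist_pos.2 e) (one_lt_two (α := ℝ))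
    refine ⟨(half_le h0 h1 dist_nonneg ?_).trans (le_mol _ a1), (mol_le _ a2.le).trans ?_⟩
    · rw [mul_comm, ← zpow_add_one₀ two_ne_zero]; exact a2.le
    · have k0 : 0 ≤ kk ((2 : ℝ) ^ θ) := tsum_nonneg fun n =>
        pow_nonneg (le_max_of_le_right (by positivity)) _
      have a3 : ((2 : ℝ) ^ θ) ^ m ≤ dist x y ^ θ := by
        rw [two_zpow]; exact Real.rpow_le_rpow (by positivity) a1 h0.le
      nlinarith [mul_le_mul_of_nonneg_left a3 k0]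

theorem far (hX : IsRationalUrysohn X) (x₀ : X) (N : ℕ) : ∃ g : X ≃ᵢ X, dist (g x₀) x₀ = N := by
  obtain ⟨φ, hφ⟩ := hX.universal ({0, (N : ℚ)} : Set ℚ) (Set.toFinite _)
    fun x y => ⟨|x.1 - y.1|, by rw [Subtype.dist_eq, Rat.dist_eq]; push_cast; rfl⟩
  obtain ⟨g1, h1⟩ := hX.homogeneous {φ ⟨0, by simp⟩} (fun _ => x₀) fun a ha b hb => by
    rw [mem_singleton.1 ha, mem_singleton.1 hb, dist_self, dist_self]
  obtain ⟨g, h2⟩ := hX.homogeneous {x₀} (fun _ => g1 (φ ⟨N, by simp⟩)) fun a ha b hb => by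
    rw [mem_singleton.1 ha, mem_singleton.1 hb, dist_self, dist_self]
  refine ⟨g, ?_⟩
  have a1 := h1 _ (mem_singleton_self _)
  have a2 := h2 _ (mem_singleton_self _)
  rw [a2]
  conv_lhs => rw [← a1]
  rw [g1.dist_eq, hφ.dist_eq, Subtype.dist_eq, Rat.dist_eq]
  simp

theorem unbounded {E : Type} [NormedAddCommGroup E] [NormedSpace ℝ E] (hX : IsRationalUrysohn X)
    (x₀ : X) (α : (X ≃ᵢ X) →* (E ≃ᵃⁱ[ℝ] E)) (ι : X → E) (h : ∀ g x, α g (ι x) = ι (g x)) {θ : ℝ}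
    (h0 : 0 < θ) (hι : ∀ x y, dist x y ^ θ / 2 ≤ dist (ι x) (ι y)) (v : E) (R : ℝ) :
    ∃ g, R < dist (α g v) v := by
  obtain ⟨N, hN⟩ := (((tendsto_rpow_atTop h0).comp tendsto_natCast_atTop_atTop).eventually_gt_atTop
    (2 * (R + 2 * dist (ι x₀) v))).exists
  obtain ⟨g, hg⟩ := far hX x₀ N
  refine ⟨g, ?_⟩
  have a1 := hι (g x₀) x₀
  have a2 := dist_triangle4 (α g (ι x₀)) (α g v) v (ι x₀)
  rw [(α g).dist_map, h, dist_comm v] at a2
  rw [hg] at a1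
  simp only [Function.comp] at hN
  linarith

end Pool.Agent.Work.MP_3e1351_al.Ct
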