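import Pool.Agent.Work.MP_3e1351_al.Defs

/-! Rademacher cotype. -/

namespace Pool.Agent.Work.MP_3e1351_al

/-- `E` has Rademacher cotype `q`: the `q`-sum of the norms of finitely many vectors is at most a
constant times the average, over all choices of signs, of the norm of the signed sum. -/
def HasCotype (q : ℝ) (E : Type) [NormedAddCommGroup E] [NormedSpace ℝ E] : Prop :=
  ∃ C : ℝ, ∀ (n : ℕ) (x : Fin n → E), (∑ i, ‖x i‖ ^ q) ^ (1 / q) ≤
    C * ((∑ ε : Fin n → Bool, ‖∑ i, (if ε i then (1 : ℝ) else -1) • x i‖) / 2 ^ n)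

end Pool.Agent.Work.MP_3e1351_al
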