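import Pool.Agent.Work.MP_3e1351_al.Ct.Cot

/-! The main theorem. -/

namespace Pool.Agent.Work.MP_3e1351_al.Ct

theorem finish {X : Type} [MetricSpace X] (E : Type) [NormedAddCommGroup E] [NormedSpace ℝ E]
    [CompleteSpace E] (L : (X ≃ᵢ X) → E ≃ₗᵢ[ℝ] E) (ι : X → E) (x₀ : X)
    (hL : ∀ g h v, L (g * h) v = L g (L h v)) (hι : ∀ g x, ι (g x₀) + L g (ι x) = ι (g x))
    (hc : ∀ v g ε, 0 < ε → ∃ F : Finset X, ∀ h : X ≃ᵢ X, (∀ x ∈ F, h x = g x) →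
      dist (L h v) (L g v) < ε) {q K : ℝ} (h0 : 0 < 1 - 2 / q) (hq : HasCotype q E)
    (hd : ∀ x y, dist x y ^ (1 - 2 / q) / 2 ≤ dist (ι x) (ι y) ∧
      dist (ι x) (ι y) ≤ K * dist x y ^ (1 - 2 / q)) :
    ∃ (E : Type) (_ : NormedAddCommGroup E) (_ : NormedSpace ℝ E) (_ : CompleteSpace E)
      (α : (X ≃ᵢ X) →* (E ≃ᵃⁱ[ℝ] E)) (ι : X → E) (K : ℝ),
      HasCotype q E ∧ IsContinuousAction α ∧ (∀ g x, α g (ι x) = ι (g x)) ∧
      (∀ x y, dist x y ^ (1 - 2 / q) / 2 ≤ dist (ι x) (ι y) ∧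
        dist (ι x) (ι y) ≤ K * dist x y ^ (1 - 2 / q)) ∧
      (IsRationalUrysohn X → ∀ (v : E) (R : ℝ), ∃ g, R < dist (α g v) v) := by
  obtain ⟨α, a1, a2⟩ := package L ι x₀ hL hι hc
  exact ⟨E, inferInstance, inferInstance, inferInstance, α, ι, K, hq, a1, a2, hd,
    fun hX => unbounded hX x₀ α ι a2 h0 fun x y => (hd x y).1⟩

theorem Fr_complete {X : Type} [MetricSpace X] {l : ℝ} (hl : 1 < l ∧ l < 2) :
    CompleteSpace (Fr X hl) := (sp X hl).isClosed_topologicalClosure.completeSpace_coe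

theorem emb_two {X : Type} [MetricSpace X] {θ : ℝ} (h0 : 0 < θ) (h1 : θ < 1) (x₀ x y : X) :
    dist x y ^ θ / 2 ≤ dist (emb (two_rpow h0 h1) x₀ x) (emb (two_rpow h0 h1) x₀ y) ∧
      dist (emb (two_rpow h0 h1) x₀ x) (emb (two_rpow h0 h1) x₀ y) ≤
        2 * kk ((2 : ℝ) ^ θ) * dist x y ^ θ := by
  rw [dist_emb]
  exact mol_two h0 h1 x y

theorem main (X : Type) [MetricSpace X] [Nonempty X] (q : ℝ) (hq : 2 < q) :
    ∃ (E : Type) (_ : NormedAddCommGroup E) (_ : NormedSpace ℝ E) (_ : CompleteSpace E)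
      (α : (X ≃ᵢ X) →* (E ≃ᵃⁱ[ℝ] E)) (ι : X → E) (K : ℝ),
      HasCotype q E ∧ IsContinuousAction α ∧ (∀ g x, α g (ι x) = ι (g x)) ∧
      (∀ x y, dist x y ^ (1 - 2 / q) / 2 ≤ dist (ι x) (ι y) ∧
        dist (ι x) (ι y) ≤ K * dist x y ^ (1 - 2 / q)) ∧
      (IsRationalUrysohn X → ∀ (v : E) (R : ℝ), ∃ g, R < dist (α g v) v) := by
  obtain ⟨x₀⟩ := ‹Nonempty X›
  have q0 : 0 < q := by linarith
  have h0 : 0 < 1 - 2 / q := sub_pos.2 ((div_lt_one q0).2 hq)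
  have h1 : 1 - 2 / q < 1 := sub_lt_self _ (by positivity)
  have := Fr_complete (X := X) (two_rpow h0 h1)
  refine finish (Fr X (two_rpow h0 h1)) (lin (two_rpow h0 h1)) (emb (two_rpow h0 h1) x₀) x₀ ?_ ?_ ?_
    (K := 2 * kk ((2 : ℝ) ^ (1 - 2 / q))) h0 (cotype hq h0 h1) ?_
  · exact lin_mul _
  · exact lin_emb _ x₀
  · exact lin_cont _
  · exact emb_two h0 h1 x₀

end Pool.Agent.Work.MP_3e1351_al.Ct
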