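import Pool.Agent.Work.MP_3e1351_al.Ct.Defs

/-! Riesz products. -/

namespace Pool.Agent.Work.MP_3e1351_al.Ct

open Finset

theorem prod_lip {ι : Type} [DecidableEq ι] (s : Finset ι) (z w : ι → ℂ) (M : ι → ℝ)
    (h1 : ∀ i, 1 ≤ M i) (hz : ∀ i, ‖z i‖ ≤ M i) (hw : ∀ i, ‖w i‖ ≤ M i) :
    ‖∏ i ∈ s, z i - ∏ i ∈ s, w i‖ ≤ (∏ i ∈ s, M i) * ∑ i ∈ s, ‖z i - w i‖ := by
  induction s using Finset.induction_on with
  | empty => simp
  | insert a s ha ih =>
    rw [prod_insert ha, prod_insert ha, prod_insert ha, sum_insert ha]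
    have hQ : ‖∏ i ∈ s, w i‖ ≤ ∏ i ∈ s, M i := by
      rw [norm_prod]
      exact prod_le_prod (fun i _ => norm_nonneg _) fun i _ => hw i
    have hP : 0 ≤ ∏ i ∈ s, M i := (norm_nonneg _).trans hQ
    have e : z a * ∏ i ∈ s, z i - w a * ∏ i ∈ s, w i =
        z a * (∏ i ∈ s, z i - ∏ i ∈ s, w i) + (z a - w a) * ∏ i ∈ s, w i := by ring
    have a1 : ‖z a * (∏ i ∈ s, z i - ∏ i ∈ s, w i)‖ ≤
        M a * ((∏ i ∈ s, M i) * ∑ i ∈ s, ‖z i - w i‖) := by
      rw [norm_mul]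
      exact mul_le_mul (hz a) ih (norm_nonneg _) (zero_le_one.trans (h1 a))
    have a2 : ‖(z a - w a) * ∏ i ∈ s, w i‖ ≤ ‖z a - w a‖ * (M a * ∏ i ∈ s, M i) := by
      rw [norm_mul]
      exact mul_le_mul_of_nonneg_left (hQ.trans (le_mul_of_one_le_left hP (h1 a))) (norm_nonneg _)
    rw [e]
    refine (norm_add_le _ _).trans ((add_le_add a1 a2).trans (le_of_eq (by ring)))

/-- the sign of a Boolean -/
def sg (b : Bool) : ℝ := if b then 1 else -1

theorem abs_sg (b : Bool) : |sg b| = 1 := by cases b <;> simp [sg]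

/-- one factor -/
noncomputable def fac (b : Bool) (t : ℝ) : ℂ := 1 + ((sg b * t : ℝ) : ℂ) * Complex.I

theorem norm_fac (b : Bool) {t c : ℝ} (h : |t| ≤ |c|) : ‖fac b t‖ ≤ Real.exp (c ^ 2 / 2) := by
  have h1 : ‖fac b t‖ ^ 2 = 1 + t ^ 2 := by
    rw [Complex.sq_norm, Complex.normSq_apply]
    cases b <;> simp [fac, sg] <;> ring
  have h2 : t ^ 2 ≤ c ^ 2 := sq_le_sq.2 h
  have h3 : Real.exp (c ^ 2 / 2) ^ 2 = Real.exp (c ^ 2) := by
    rw [sq, ← Real.exp_add]; congr 1; ring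
  have h4 := Real.add_one_le_exp (c ^ 2)
  exact (pow_le_pow_iff_left₀ (norm_nonneg _) (Real.exp_pos _).le two_ne_zero).1 (by linarith)

theorem fac_sub (b : Bool) (t t' : ℝ) : ‖fac b t - fac b t'‖ = |t - t'| := by
  have e : fac b t - fac b t' = ((sg b * (t - t') : ℝ) : ℂ) * Complex.I := by
    simp only [fac]; push_cast; ring
  rw [e, norm_mul, Complex.norm_I, mul_one, Complex.norm_real, Real.norm_eq_abs, abs_mul, abs_sg,
    one_mul]

variable {n : ℕ}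

theorem prod_exp_le {c : Fin n → ℝ} (hc : ∑ j, c j ^ 2 ≤ 1) :
    ∏ j, Real.exp (c j ^ 2 / 2) ≤ 2 := by
  rw [← Real.exp_sum, ← sum_div]
  have h1 : Real.exp ((∑ j, c j ^ 2) / 2) ≤ Real.exp (1 / 2) := Real.exp_le_exp.2 (by linarith)
  have h3 : Real.exp (1 / 2) ^ 2 = Real.exp 1 := by
    rw [sq, ← Real.exp_add]; norm_num
  have h4 := Real.exp_one_lt_d9
  refine h1.trans ((pow_le_pow_iff_left₀ (Real.exp_pos _).le zero_le_two two_ne_zero).1 ?_)
  rw [h3]; linarith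

/-- half the imaginary part of the Riesz product -/
noncomputable def rz (c : Fin n → ℝ) (ε : Fin n → Bool) (u : Fin n → ℝ) : ℝ :=
  (∏ j, fac (ε j) (c j * u j)).im / 2

theorem abs_cu {c u : ℝ} (h : |u| ≤ 1) : |c * u| ≤ |c| := by
  rw [abs_mul]; exact mul_le_of_le_one_right (abs_nonneg _) h

theorem rz_abs {c : Fin n → ℝ} (hc : ∑ j, c j ^ 2 ≤ 1) (ε : Fin n → Bool) {u : Fin n → ℝ}
    (hu : ∀ j, |u j| ≤ 1) : |rz c ε u| ≤ 1 := by
  have h1 : ‖∏ j, fac (ε j) (c j * u j)‖ ≤ 2 := by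
    rw [norm_prod]
    exact (prod_le_prod (fun i _ => norm_nonneg _) fun i _ => norm_fac _ (abs_cu (hu i))).trans
      (prod_exp_le hc)
  have h2 := Complex.abs_im_le_norm (∏ j, fac (ε j) (c j * u j))
  rw [rz, abs_div, abs_two]
  linarith

theorem rz_lip {c : Fin n → ℝ} (hc : ∑ j, c j ^ 2 ≤ 1) (ε : Fin n → Bool) {u u' : Fin n → ℝ}
    (hu : ∀ j, |u j| ≤ 1) (hu' : ∀ j, |u' j| ≤ 1) :
    |rz c ε u - rz c ε u'| ≤ ∑ j, |c j| * |u j - u' j| := by
  have h1 := prod_lip univ (fun j => fac (ε j) (c j * u j)) (fun j => fac (ε j) (c j * u' j))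
    (fun j => Real.exp (c j ^ 2 / 2)) (fun j => Real.one_le_exp (by positivity))
    (fun j => norm_fac _ (abs_cu (hu j))) (fun j => norm_fac _ (abs_cu (hu' j)))
  simp only [fac_sub, ← mul_sub, abs_mul] at h1
  have h2 := Complex.abs_im_le_norm (∏ j, fac (ε j) (c j * u j) - ∏ j, fac (ε j) (c j * u' j))
  have h3 : 0 ≤ ∑ j, |c j| * |u j - u' j| := sum_nonneg fun j _ => by positivity
  have h4 := mul_le_mul_of_nonneg_right (prod_exp_le hc) h3
  rw [rz, rz, ← sub_div, ← Complex.sub_im, abs_div, abs_two]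
  linarith

theorem rz_avg (c u : Fin n → ℝ) (j : Fin n) :
    ∑ ε : Fin n → Bool, sg (ε j) * rz c ε u = 2 ^ n / 2 * (c j * u j) := by
  have h1 : ∀ ε : Fin n → Bool, (sg (ε j) : ℂ) * ∏ i, fac (ε i) (c i * u i) =
      ∏ i, ((if i = j then (sg (ε i) : ℂ) else 1) * fac (ε i) (c i * u i)) := by
    intro ε
    rw [prod_mul_distrib, prod_ite_eq' univ j fun i => (sg (ε i) : ℂ), if_pos (mem_univ j)]
  have h2 : ∀ i, ∑ b : Bool, (if i = j then (sg b : ℂ) else 1) * fac b (c i * u i) =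
      2 * if i = j then ((c i * u i : ℝ) : ℂ) * Complex.I else 1 := by
    intro i
    split_ifs <;> simp [fac, sg] <;> ring
  have h3 : ∑ ε : Fin n → Bool, (sg (ε j) : ℂ) * ∏ i, fac (ε i) (c i * u i) =
      2 ^ n * (((c j * u j : ℝ) : ℂ) * Complex.I) := by
    rw [sum_congr rfl fun ε _ => h1 ε, ← Fintype.piFinset_univ,
      ← prod_univ_sum (fun _ => univ)
        fun i b => (if i = j then (sg b : ℂ) else 1) * fac b (c i * u i),
      prod_congr rfl fun i _ => h2 i, prod_mul_distrib,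
      prod_ite_eq' univ j fun i => ((c i * u i : ℝ) : ℂ) * Complex.I, if_pos (mem_univ j)]
    simp
  have h4 := congrArg Complex.im h3
  rw [Complex.im_sum] at h4
  simp only [Complex.im_ofReal_mul] at h4
  have h5 : ((2 : ℂ) ^ n * (((c j * u j : ℝ) : ℂ) * Complex.I)).im = 2 ^ n * (c j * u j) := by
    have : (2 : ℂ) ^ n = ((2 ^ n : ℝ) : ℂ) := by push_cast; rfl
    rw [this, Complex.im_ofReal_mul, Complex.im_ofReal_mul, Complex.I_im, mul_one]
  rw [h5] at h4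
  simp only [rz, ← mul_div_assoc, ← sum_div]
  rw [h4]; ring

end Pool.Agent.Work.MP_3e1351_al.Ct
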