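import Pool.Agent.Work.MP_3e1351_al.Ct.Riesz

/-! The space spanned by the molecules and the action of the isometry group on it. -/

namespace Pool.Agent.Work.MP_3e1351_al.Ct

open Finset
open scoped BoundedContinuousFunction

/-- families of test functions, one for each dyadic scale -/
def Phi (X : Type) [MetricSpace X] : Type :=
  {h : ℤ → X → ℝ // ∀ k x y, |h k x| ≤ 1 ∧ |h k x - h k y| ≤ (2 : ℝ) ^ (-k) * dist x y}

variable {X : Type} [MetricSpace X] {l : ℝ}

instance : TopologicalSpace (Phi X) := ⊥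

instance : DiscreteTopology (Phi X) := ⟨rfl⟩

/-- the term at scale `k` -/
noncomputable def tm (l : ℝ) (h : Phi X) (x y : X) (k : ℤ) : ℝ := l ^ k * (h.1 k x - h.1 k y)

/-- the ratio of the geometric bound -/
noncomputable def rho (l : ℝ) : ℝ := max l⁻¹ (l / 2)

/-- the constant of the upper bound -/
noncomputable def kk (l : ℝ) : ℝ := ∑' n : ℤ, rho l ^ n.natAbs

theorem rho_sum (hl : 1 < l ∧ l < 2) (m : ℤ) :
    HasSum (fun k : ℤ => rho l ^ (k - m).natAbs) (kk l) := by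
  have h0 : 0 ≤ rho l := le_max_of_le_right (by linarith [hl.1])
  have h1 : rho l < 1 := max_lt (inv_lt_one_of_one_lt₀ hl.1) (by linarith [hl.2])
  have hs : Summable fun n : ℤ => rho l ^ n.natAbs :=
    Summable.of_nat_of_neg (by simpa using summable_geometric_of_lt_one h0 h1)
      (by simpa using summable_geometric_of_lt_one h0 h1)
  exact (Equiv.subRight m).hasSum_iff.2 hs.hasSum

theorem tm_le (hl : 1 < l ∧ l < 2) (h : Phi X) {x y : X} {m : ℤ} (hm : dist x y ≤ 2 ^ (m + 1))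
    (k : ℤ) : ‖tm l h x y k‖ ≤ 2 * l ^ m * rho l ^ (k - m).natAbs := by
  have l0 : 0 < l := zero_lt_one.trans hl.1
  rw [tm, Real.norm_eq_abs, abs_mul, abs_of_pos (zpow_pos l0 k)]
  rcases le_total k m with hk | hk
  · obtain ⟨n, rfl⟩ := Int.le.dest hk
    have e : (k - (k + n)).natAbs = n := by omega
    have h1 : |h.1 k x - h.1 k y| ≤ 2 := by
      have a := abs_le.1 (h.2 k x y).1
      have b := abs_le.1 (h.2 k y x).1
      exact abs_le.2 ⟨by linarith [a.1, b.2], by linarith [a.2, b.1]⟩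
    have h2 : l⁻¹ ^ n ≤ rho l ^ n := pow_le_pow_left₀ (inv_pos.2 l0).le (le_max_left _ _) n
    rw [e, zpow_add₀ l0.ne', zpow_natCast]
    calc l ^ k * |h.1 k x - h.1 k y| ≤ l ^ k * 2 := mul_le_mul_of_nonneg_left h1 (zpow_pos l0 k).le
      _ = 2 * (l ^ k * l ^ n) * l⁻¹ ^ n := by
        rw [inv_pow]; field_simp
      _ ≤ _ := mul_le_mul_of_nonneg_left h2 (by positivity)
  · obtain ⟨n, rfl⟩ := Int.le.dest hk
    have e : (m + n - m).natAbs = n := by omega
    have h1 : |h.1 (m + n) x - h.1 (m + n) y| ≤ (2 : ℝ) ^ (-(m + n)) * 2 ^ (m + 1) :=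
      (h.2 _ x y).2.trans (mul_le_mul_of_nonneg_left hm (by positivity))
    have h2 : (l / 2) ^ n ≤ rho l ^ n := pow_le_pow_left₀ (by positivity) (le_max_right _ _) n
    rw [e]
    calc l ^ (m + n) * |h.1 (m + n) x - h.1 (m + n) y|
        ≤ l ^ (m + n) * ((2 : ℝ) ^ (-(m + n)) * 2 ^ (m + 1)) :=
          mul_le_mul_of_nonneg_left h1 (zpow_pos l0 _).le
      _ = 2 * l ^ m * (l / 2) ^ n := by
        rw [zpow_neg, zpow_add₀ l0.ne', zpow_add₀ two_ne_zero, zpow_add₀ two_ne_zero, zpow_natCast,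
          zpow_natCast, div_pow, zpow_one]
        field_simp
      _ ≤ _ := mul_le_mul_of_nonneg_left h2 (by positivity)

theorem exists_scale (d : ℝ) : ∃ m : ℤ, d ≤ 2 ^ (m + 1) := by
  obtain ⟨n, hn⟩ := pow_unbounded_of_one_lt d (one_lt_two (α := ℝ))
  exact ⟨n - 1, by rw [sub_add_cancel, zpow_natCast]; exact hn.le⟩

theorem tm_sum (hl : 1 < l ∧ l < 2) (h : Phi X) (x y : X) :
    HasSum (tm l h x y) (∑' k, tm l h x y k) := by
  obtain ⟨m, hm⟩ := exists_scale (dist x y)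
  exact (Summable.of_norm_bounded ((rho_sum hl m).mul_left (2 * l ^ m)).summable
    (tm_le hl h hm)).hasSum

theorem tsum_le (hl : 1 < l ∧ l < 2) (h : Phi X) {x y : X} {m : ℤ}
    (hm : dist x y ≤ 2 ^ (m + 1)) : ‖∑' k, tm l h x y k‖ ≤ 2 * l ^ m * kk l :=
  tsum_of_norm_bounded ((rho_sum hl m).mul_left (2 * l ^ m)) (tm_le hl h hm)

/-- the molecule of two points -/
noncomputable def mol (hl : 1 < l ∧ l < 2) (x y : X) : Phi X →ᵇ ℝ :=
  ⟨⟨fun h => ∑' k, tm l h x y k, continuous_of_discreteTopology⟩, by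
    obtain ⟨m, hm⟩ := exists_scale (dist x y)
    exact ⟨_, fun h h' => (dist_le_norm_add_norm _ _).trans
      (add_le_add (tsum_le hl h hm) (tsum_le hl h' hm))⟩⟩

theorem mol_sum (hl : 1 < l ∧ l < 2) (h : Phi X) (x y : X) :
    HasSum (tm l h x y) (mol hl x y h) := tm_sum hl h x y

theorem mol_add (hl : 1 < l ∧ l < 2) (x y z : X) : mol hl x y + mol hl y z = mol hl x z := by
  ext h
  refine ((mol_sum hl h x y).add (mol_sum hl h y z)).unique ?_
  have e : (fun k => tm l h x y k + tm l h y z k) = tm l h x z := by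
    funext k; simp only [tm]; ring
  rw [e]
  exact mol_sum hl h x z

theorem mol_self (hl : 1 < l ∧ l < 2) (x : X) : mol hl x x = 0 := by
  have := mol_add hl x x x
  simpa using this

theorem mol_le (hl : 1 < l ∧ l < 2) {x y : X} {m : ℤ} (hm : dist x y ≤ 2 ^ (m + 1)) :
    ‖mol hl x y‖ ≤ 2 * l ^ m * kk l := by
  have h0 : 0 ≤ 2 * l ^ m * kk l :=
    (norm_nonneg _).trans (tsum_le hl ⟨fun _ _ => 0, fun k x y => by simp; positivity⟩ hm)
  exact (BoundedContinuousFunction.norm_le h0).2 fun h => tsum_le hl h hm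

theorem le_mol (hl : 1 < l ∧ l < 2) {x y : X} {m : ℤ} (hm : 2 ^ m ≤ dist x y) :
    l ^ m ≤ ‖mol hl x y‖ := by
  have p2 : ∀ k : ℤ, (0 : ℝ) < 2 ^ (-k) := fun k => by positivity
  let h : Phi X := ⟨fun k z => if k = m then min 1 (2 ^ (-k) * dist z y) else 0, fun k a b => by
    beta_reduce
    split_ifs
    · refine ⟨?_, ?_⟩
      · rw [abs_of_nonneg (le_min zero_le_one (by positivity))]
        exact min_le_left _ _
      · refine (abs_min_sub_min_le_max _ _ _ _).trans (max_le (by simp; positivity) ?_)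
        rw [← mul_sub, abs_mul, abs_of_pos (p2 k)]
        exact mul_le_mul_of_nonneg_left (abs_dist_sub_le a b y) (p2 k).le
    · simp; positivity⟩
  have h1 : mol hl x y h = l ^ m := by
    refine (mol_sum hl h x y).unique ?_
    have e : tm l h x y m = l ^ m := by
      have : (1 : ℝ) ≤ 2 ^ (-m) * dist x y := by
        have := mul_le_mul_of_nonneg_left hm (p2 m).le
        rwa [← zpow_add₀ two_ne_zero, neg_add_cancel, zpow_zero] at this
      simp only [tm, h, if_true, dist_self, mul_zero, min_eq_left this, min_eq_right zero_le_one,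
        sub_zero, mul_one]
    rw [← e]
    exact hasSum_single m fun k hk => by simp only [tm, h, if_neg hk, sub_self, mul_zero]
  rw [← h1]
  exact (le_abs_self _).trans ((mol hl x y).norm_coe_le_norm h)

/-- an isometry acts on test families -/
def act (g : X ≃ᵢ X) (h : Phi X) : Phi X :=
  ⟨fun k x => h.1 k (g x), fun k x y => by
    rw [← g.dist_eq x y]; exact h.2 k (g x) (g y)⟩

/-- the linear action on bounded functions -/
noncomputable def pi (g : X ≃ᵢ X) : (Phi X →ᵇ ℝ) →L[ℝ] (Phi X →ᵇ ℝ) :=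
  BoundedContinuousFunction.compContinuousCLM ℝ ℝ ⟨act g, continuous_of_discreteTopology⟩

theorem pi_mol (hl : 1 < l ∧ l < 2) (g : X ≃ᵢ X) (x y : X) :
    pi g (mol hl x y) = mol hl (g x) (g y) := rfl

theorem pi_mul (g h : X ≃ᵢ X) (v : Phi X →ᵇ ℝ) : pi (g * h) v = pi g (pi h v) := rfl

theorem pi_one (v : Phi X →ᵇ ℝ) : pi 1 v = v := rfl

theorem pi_le (g : X ≃ᵢ X) (v : Phi X →ᵇ ℝ) : ‖pi g v‖ ≤ ‖v‖ :=
  BoundedContinuousFunction.norm_compContinuous_le _ _

theorem pi_norm (g : X ≃ᵢ X) (v : Phi X →ᵇ ℝ) : ‖pi g v‖ = ‖v‖ := by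
  refine (pi_le g v).antisymm ?_
  have := pi_le g⁻¹ (pi g v)
  rwa [← pi_mul, inv_mul_cancel, pi_one] at this

/-- the span of the molecules -/
noncomputable def sp (X : Type) [MetricSpace X] (hl : 1 < l ∧ l < 2) : Submodule ℝ (Phi X →ᵇ ℝ) :=
  Submodule.span ℝ (Set.range fun p : X × X => mol hl p.1 p.2)

/-- the closed span of the molecules -/
noncomputable def Fr (X : Type) [MetricSpace X] (hl : 1 < l ∧ l < 2) : Submodule ℝ (Phi X →ᵇ ℝ) :=
  (sp X hl).topologicalClosure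

theorem mol_mem (hl : 1 < l ∧ l < 2) (x y : X) : mol hl x y ∈ Fr X hl :=
  (sp X hl).le_topologicalClosure (Submodule.subset_span ⟨(x, y), rfl⟩)

theorem Fr_le (hl : 1 < l ∧ l < 2) {W : Submodule ℝ (Phi X →ᵇ ℝ)}
    (hW : IsClosed (W : Set (Phi X →ᵇ ℝ))) (hm : ∀ x y, mol hl x y ∈ W) : Fr X hl ≤ W :=
  (sp X hl).topologicalClosure_minimal
    (Submodule.span_le.2 (by rintro _ ⟨p, rfl⟩; exact hm _ _)) hW

theorem pi_mem (hl : 1 < l ∧ l < 2) (g : X ≃ᵢ X) {v : Phi X →ᵇ ℝ} (hv : v ∈ Fr X hl) :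
    pi g v ∈ Fr X hl :=
  Fr_le hl (W := (Fr X hl).comap (pi g).toLinearMap)
    ((sp X hl).isClosed_topologicalClosure.preimage (pi g).continuous)
    (fun x y => mol_mem hl (g x) (g y)) hv

/-- the linear part of the action -/
noncomputable def lin (hl : 1 < l ∧ l < 2) (g : X ≃ᵢ X) : Fr X hl ≃ₗᵢ[ℝ] Fr X hl where
  toFun v := ⟨pi g v, pi_mem hl g v.2⟩
  invFun v := ⟨pi g⁻¹ v, pi_mem hl g⁻¹ v.2⟩
  map_add' v w := Subtype.ext ((pi g).map_add v w)
  map_smul' c v := Subtype.ext ((pi g).map_smul c v)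
  left_inv v := Subtype.ext (by
    show pi g⁻¹ (pi g v) = v
    rw [← pi_mul, inv_mul_cancel, pi_one])
  right_inv v := Subtype.ext (by
    show pi g (pi g⁻¹ v) = v
    rw [← pi_mul, mul_inv_cancel, pi_one])
  norm_map' v := pi_norm g v

/-- the embedding -/
noncomputable def emb (hl : 1 < l ∧ l < 2) (x₀ x : X) : Fr X hl := ⟨mol hl x x₀, mol_mem hl x x₀⟩

theorem package {E : Type} [NormedAddCommGroup E] [NormedSpace ℝ E] (L : (X ≃ᵢ X) → E ≃ₗᵢ[ℝ] E)
    (ι : X → E) (x₀ : X) (hL : ∀ g h v, L (g * h) v = L g (L h v))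
    (hι : ∀ g x, ι (g x₀) + L g (ι x) = ι (g x))
    (hc : ∀ v g ε, 0 < ε → ∃ F : Finset X, ∀ h : X ≃ᵢ X, (∀ x ∈ F, h x = g x) →
      dist (L h v) (L g v) < ε) :
    ∃ α : (X ≃ᵢ X) →* (E ≃ᵃⁱ[ℝ] E), IsContinuousAction α ∧ ∀ g x, α g (ι x) = ι (g x) := by
  classical
  refine ⟨MonoidHom.mk' (fun g => (L g).toAffineIsometryEquiv.trans
    (AffineIsometryEquiv.constVAdd ℝ E (ι (g x₀)))) fun g h => ?_, fun v g ε hε => ?_, hι⟩
  · ext1 v
    show ι (g (h x₀)) + L (g * h) v = ι (g x₀) + L g (ι (h x₀) + L h v)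
    rw [map_add, ← add_assoc, hι, hL]
  · obtain ⟨F, hF⟩ := hc v g ε hε
    refine ⟨insert x₀ F, fun h hh => ?_⟩
    show dist (ι (h x₀) + L h v) (ι (g x₀) + L g v) < ε
    rw [hh x₀ (mem_insert_self _ _), dist_add_left]
    exact hF h fun x hx => hh x (mem_insert_of_mem hx)

theorem lin_mul (hl : 1 < l ∧ l < 2) (g h : X ≃ᵢ X) (v : Fr X hl) :
    lin hl (g * h) v = lin hl g (lin hl h v) := rfl

theorem lin_emb (hl : 1 < l ∧ l < 2) (x₀ : X) (g : X ≃ᵢ X) (x : X) :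
    emb hl x₀ (g x₀) + lin hl g (emb hl x₀ x) = emb hl x₀ (g x) := by
  refine Subtype.ext ?_
  show mol hl (g x₀) x₀ + mol hl (g x) (g x₀) = mol hl (g x) x₀
  rw [add_comm, mol_add]

theorem dist_emb (hl : 1 < l ∧ l < 2) (x₀ x y : X) :
    dist (emb hl x₀ x) (emb hl x₀ y) = ‖mol hl x y‖ := by
  show dist (mol hl x x₀) (mol hl y x₀) = _
  rw [dist_eq_norm, ← mol_add hl x y x₀, add_sub_cancel_right]

theorem loc_const (hl : 1 < l ∧ l < 2) (g : X ≃ᵢ X) {u : Phi X →ᵇ ℝ} (hu : u ∈ sp X hl) :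
    ∃ F : Finset X, ∀ h : X ≃ᵢ X, (∀ x ∈ F, h x = g x) → pi h u = pi g u := by
  classical
  induction hu using Submodule.span_induction with
  | mem u hu =>
    obtain ⟨p, rfl⟩ := hu
    exact ⟨{p.1, p.2}, fun h hh => by
      rw [pi_mol, pi_mol, hh p.1 (by simp), hh p.2 (by simp)]⟩
  | zero => exact ⟨∅, fun h _ => by rw [map_zero, map_zero]⟩
  | add u w _ _ h1 h2 =>
    obtain ⟨F, hF⟩ := h1
    obtain ⟨G, hG⟩ := h2
    exact ⟨F ∪ G, fun h hh => by
      rw [map_add, map_add, hF h fun x hx => hh x (mem_union_left _ hx),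
        hG h fun x hx => hh x (mem_union_right _ hx)]⟩
  | smul c u _ h1 =>
    obtain ⟨F, hF⟩ := h1
    exact ⟨F, fun h hh => by rw [map_smul, map_smul, hF h hh]⟩

theorem lin_cont (hl : 1 < l ∧ l < 2) (v : Fr X hl) (g : X ≃ᵢ X) (ε : ℝ) (hε : 0 < ε) :
    ∃ F : Finset X, ∀ h : X ≃ᵢ X, (∀ x ∈ F, h x = g x) → dist (lin hl h v) (lin hl g v) < ε := by
  obtain ⟨u, hu, hd⟩ := Metric.mem_closure_iff.1 (show (v : Phi X →ᵇ ℝ) ∈ closure (sp X hl) from v.2)
    (ε / 2) (half_pos hε)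
  obtain ⟨F, hF⟩ := loc_const hl g hu
  refine ⟨F, fun h hh => ?_⟩
  show dist (pi h v) (pi g v) < ε
  have e : pi h v - pi g v = pi h (v - u) - pi g (v - u) := by
    rw [map_sub, map_sub, hF h hh]
    abel
  rw [dist_eq_norm, e]
  refine (norm_sub_le _ _).trans_lt ?_
  rw [pi_norm, pi_norm, ← dist_eq_norm]
  linarith

end Pool.Agent.Work.MP_3e1351_al.Ct
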